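import Pool.Agent.V8H24.GPX.GFAsm

set_option autoImplicit false

/-!
# Moments of zeta of the orders two, four, six and eight, half of the shifts fixed and the other half generic

Let `1 ≤ k ≤ 4`. There is `δ > 0` such that for every fixed vector of shifts `a ∈ ℝ^k`, with or without repetitions
(`a = 0` is included), for all large `T` and all `0 ≤ S ≤ T`

`∫_0^S ∏_{j ≤ k} ζ(1/2 + i(t + a_j)) conj ζ(1/2 + i(t + b_j)) dt = S A(a,b) ∏_{j,l} ζ(1 + i(a_j - b_l)) + O(T^(1-δ))`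

for all `b ∈ [0,T]^k` outside a set of measure at most `T^(k-δ)`. For `k = 4` and `a = 0` this is an asymptotic formula
with a power saving for the integral of `ζ(1/2 + it)^4` against the product of the conjugates of four generic translates
of zeta, an integral of order eight. The proof uses Weyl's bound and the fourth moment for the fixed factors (this is
where `k ≤ 4` is needed) and mean values over `b` for the others. The parts of the proof are in the folders `GF` and `GS`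
of the starting files (project of helper612); the assembly is new.
-/

namespace Pool.Agent.Results.MP_f9aece_nt.FixedTimesGenericShifts

open Complex MeasureTheory Set

noncomputable section

/-- `∑ f_1^(l_1) ⋯ f_k^(l_k)`, over the factorisations `f_1 ⋯ f_k = m` into `k` positive integers. -/
def tau {k : ℕ} (l : Fin k → ℂ) (m : ℕ) : ℂ := ∑ f ∈ Nat.finMulAntidiag k m, ∏ j, (f j : ℂ) ^ l j

/-- The local factor at the prime `p` of the arithmetic factor. -/
def localFactor {k : ℕ} (a b : Fin k → ℝ) (p : ℕ) : ℂ :=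
  (∏ j, ∏ l, (1 - (p : ℂ) ^ (-(1 + I * a j - I * b l)))) *
    ∑' m : ℕ, tau (fun j => I * b j) (p ^ m) * tau (fun j => -(I * a j)) (p ^ m) * ((p : ℂ) ^ m)⁻¹

/-- The main term `A(a,b) ∏_{j,l} ζ(1 + i(a_j - b_l))`, `A(a,b)` the Euler product of the local factors. -/
def mainTerm {k : ℕ} (a b : Fin k → ℝ) : ℂ :=
  (∏' p : Nat.Primes, localFactor a b p) * ∏ j, ∏ l, riemannZeta (1 + I * a j - I * b l)

/-- The product `∏_j ζ(1/2 + i(t + a_j)) conj ζ(1/2 + i(t + b_j))`. -/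
def P {k : ℕ} (a b : Fin k → ℝ) (t : ℝ) : ℂ :=
  ∏ j, riemannZeta (1 / 2 + I * ((t + a j : ℝ) : ℂ)) *
    (starRingEnd ℂ) (riemannZeta (1 / 2 + I * ((t + b j : ℝ) : ℂ)))

theorem result (k : ℕ) (hk : k ≤ 4) : ∃ δ : ℝ, 0 < δ ∧ ∀ a : Fin k → ℝ, ∃ T₀ : ℝ, ∀ T : ℝ, T₀ ≤ T →
    ∀ S : ℝ, 0 ≤ S → S ≤ T →
    volume {b : Fin k → ℝ | (∀ j, 0 ≤ b j ∧ b j ≤ T) ∧
      T ^ (1 - δ) < ‖(∫ t in (0:ℝ)..S, P a b t) - S * mainTerm a b‖} ≤ ENNReal.ofReal (T ^ (k - δ : ℝ)) := by
  obtain ⟨δ, hδ, h⟩ := Pool.Agent.V8H24.GPX.gf_MAIN k hk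
  refine ⟨δ, hδ, fun a => ?_⟩
  obtain ⟨T₀, h⟩ := h a
  refine ⟨T₀, fun T hT S hS hST => ?_⟩
  have h3 := h T hT S hS hST
  have hbox : MeasurableSet (Set.univ.pi fun _ : Fin k => Icc (0 : ℝ) T) :=
    MeasurableSet.univ_pi fun _ => measurableSet_Icc
  have e3 : Pool.Agent.TH612.GS.mP (Fin k) T =
      (volume : Measure (Fin k → ℝ)).restrict (Set.univ.pi fun _ => Icc (0 : ℝ) T) := by
    unfold Pool.Agent.TH612.GS.mP
    rw [volume_pi, Measure.restrict_pi_pi]
  rw [e3, Measure.restrict_apply' hbox] at h3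
  refine le_trans (le_of_eq ?_) h3
  congr 1
  ext b
  have e2 : ∀ t : ℝ, Pool.Agent.TH612.CF.Zg (Pool.Agent.TH612.GS.gab a b) t = P a b t := fun t => by
    rw [Pool.Agent.TH612.GS.Zg_fz]
    rfl
  simp only [mem_inter_iff, mem_ofPred_eq, mem_pi, mem_univ, true_imp_iff, mem_Icc, Pool.Agent.TH612.GS.BadD, e2]
  constructor
  · rintro ⟨q1, q2⟩
    exact ⟨⟨q1, q2⟩, q1⟩
  · rintro ⟨⟨q1, q2⟩, -⟩
    exact ⟨q1, q2⟩

end

end Pool.Agent.Results.MP_f9aece_nt.FixedTimesGenericShifts
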