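import Pool.Agent.V8H24.GPX.SXAsm

set_option autoImplicit false

/-!
# The fourth power of zeta times the squares of any number of its translates

Let `n ≥ 0`, `L = log T` and, for `c ∈ [0,T]^n`,

`I_T(c) = ∫_0^T |ζ(1/2 + it)|^4 ∏_{j ≤ n} |ζ(1/2 + i(t + c_j))|² dt`,

a moment of order `2n + 4` (in terms of the problem `T E |μ_T(0)|⁴ ∏ |μ_T(c_j)|²`). We prove that
`I_T(c) / (T L^(n+4))` differs from `1/12` times the product of the local densities at the primes `p ≤ L` by `o(1)` on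
average over `c ∈ [0,T]^n`, and that

`I_T(c) = (1/12 + o(1)) A(c) ∏_j |ζ(1 + i c_j)|⁴ ∏_{i<j} |ζ(1 + i (c_i - c_j))|² T L^(n+4)`

for all `c ∈ [0,T]^n` outside a set of measure `o(T^n)`. For `n = 0` this is Ingham's theorem, the case `β = 4` of the
problem (`A = 6/π²`). The proof combines the smooth approximate functional equation for `|ζ|²` and the large sieve in
several variables with the twisted fourth moment of zeta. The parts of the proof are in the folders `SX`, `SM`, `GP` and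
`N4` of the starting files (project of helper969); the assembly and a few parts (`ZL`, `SMom`) are new.
-/

namespace Pool.Agent.Results.MP_f9aece_nt.FourthPowerTimesSquares

open Complex MeasureTheory

noncomputable section

variable {n : ℕ}

/-- The integral `I_T(c)`. -/
def integral (T : ℝ) (c : Fin n → ℝ) : ℝ :=
  ∫ t in (0 : ℝ)..T, ‖riemannZeta (1 / 2 + I * t)‖ ^ 4 * ∏ j, ‖riemannZeta (1 / 2 + I * (t + c j))‖ ^ 2

/-- The local density at `p`: `(1 - 1/p)^(n+4)` times the mean over `θ ∈ [0,1]` of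
`|1 - e(θ) p^(-1/2)|^(-4) ∏_j |1 - e(θ) p^(-1/2 - i c_j)|^(-2)`, `e(θ) = exp(2πiθ)`. -/
def density (c : Fin n → ℝ) (p : ℕ) : ℝ :=
  (1 - 1 / (p : ℝ)) ^ (n + 4) * ∫ θ in (0 : ℝ)..1,
    1 / (‖1 - cexp (2 * Real.pi * I * θ) * (p : ℂ) ^ (-(1 / 2) : ℂ)‖ ^ 4 *
      ∏ j, ‖1 - cexp (2 * Real.pi * I * θ) * (p : ℂ) ^ (-(1 / 2 + I * c j))‖ ^ 2)

/-- The product of the local densities at the primes `p ≤ y`. -/
def densities (y : ℝ) (c : Fin n → ℝ) : ℝ := ∏ p ∈ (Finset.range (⌊y⌋₊ + 1)).filter Nat.Prime, density c p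

/-- `∏_j |1 - p^(-1 - i c_j)|⁴ ∏_{i<j} |1 - p^(-1 - i (c_i - c_j))|²`. -/
def euler (c : Fin n → ℝ) (p : ℕ) : ℝ :=
  (∏ j, ‖1 - (p : ℂ) ^ (-(1 + I * c j))‖ ^ 4) *
    ∏ i, ∏ j ∈ Finset.Ioi i, ‖1 - (p : ℂ) ^ (-(1 + I * (c i - c j)))‖ ^ 2

/-- The arithmetic factor `A(c)`. -/
def A (c : Fin n → ℝ) : ℝ := ∏' p : Nat.Primes, density c p * euler c p

/-- `∏_j |ζ(1 + i c_j)|⁴ ∏_{i<j} |ζ(1 + i (c_i - c_j))|²`. -/
def Z (c : Fin n → ℝ) : ℝ :=
  (∏ j, ‖riemannZeta (1 + I * c j)‖ ^ 4) * ∏ i, ∏ j ∈ Finset.Ioi i, ‖riemannZeta (1 + I * (c i - c j))‖ ^ 2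

theorem result (n : ℕ) :
    (∃ C : ℝ, ∀ c : Fin n → ℝ, ∀ p : ℕ, p.Prime → |density c p * euler c p - 1| ≤ C / (p : ℝ) ^ 2) ∧
    ∀ ε : ℝ, 0 < ε → ∃ T₀ : ℝ, ∀ T : ℝ, T₀ ≤ T →
      IntegrableOn (fun c : Fin n → ℝ =>
        |integral T c / (T * Real.log T ^ (n + 4)) - 1 / 12 * densities (Real.log T) c|)
        {c | ∀ j, c j ∈ Set.Icc 0 T} ∧
      ∫ c in {c : Fin n → ℝ | ∀ j, c j ∈ Set.Icc 0 T},
        |integral T c / (T * Real.log T ^ (n + 4)) - 1 / 12 * densities (Real.log T) c| ≤ ε * T ^ n ∧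
      volume {c : Fin n → ℝ | (∀ j, c j ∈ Set.Icc 0 T) ∧
        ¬ |integral T c / (1 / 12 * A c * Z c * (T * Real.log T ^ (n + 4))) - 1| ≤ ε} ≤
        ENNReal.ofReal (ε * T ^ n) :=
  Pool.Agent.Y969.SM.res_gen Pool.Agent.V8H24.GPX.sx_MAIN Pool.Agent.V8H24.GPX.sx_REL
    Pool.Agent.V8H24.GPX.sx_AA n

end

end Pool.Agent.Results.MP_f9aece_nt.FourthPowerTimesSquares
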