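import Pool.Agent.V8H24.GPX.Asm

set_option autoImplicit false

/-!
# Moments of zeta of every even order with generic shifts, with a remainder of square root size

Let `n ≥ 0`, `c ∈ [0,T]^n` and `c_0 = 0`. For every `ε > 0` there is `δ > 0` such that, for all large `T` and all
`0 ≤ S ≤ T`,

`∫_0^S ∏_{j=0}^n |ζ(1/2 + i(t + c_j))|² dt = ∫_0^S R_c(t) dt + O(T^(1/2+ε))`

for all `c ∈ [0,T]^n` outside a set of measure at most `T^(n-δ)`. In terms of the random function
`μ_T(x) = ζ(1/2 + ix + iωT)` of the problem: the asymptotics of `E ∏ |μ_T(x_j)|²`, a moment of order `2n + 2`, for almost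
all points, where the known cases `β = 2` and `β = 4` of the problem are those of one point, and of order at most four.
The main term `R_c(t)` is the one of the recipe of Conrey, Farmer, Keating, Rubinstein and Snaith, as a multiple contour
integral. The proof is by the smooth approximate functional equation for `|ζ|²`, a large sieve in `n` variables for the
off-diagonal part, and a shift of contours in the diagonal part, where the mean over `c` of the values of zeta on the
line `Re s = 1/2` is used. The parts of the proof are in the folders `GP` of the starting files (project of helper969);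
the assembly and the last two parts (`ZL`, `SMom`) are new.
-/

namespace Pool.Agent.Results.MP_f9aece_nt.GenericSquaresSqrtError

open Complex MeasureTheory

noncomputable section

/-- `∑ f_1^(l_1) ⋯ f_k^(l_k)`, over the factorisations `f_1 ⋯ f_k = m` into `k` positive integers. -/
def tau {k : ℕ} (l : Fin k → ℂ) (m : ℕ) : ℂ := ∑ f ∈ Nat.finMulAntidiag k m, ∏ j, (f j : ℂ) ^ l j

/-- The local factor at the prime `p` of the arithmetic factor, `a` the shifts of the factors `ζ(1/2 + i(t + a_j))` and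
`b` the shifts of the factors `ζ(1/2 - i(t + b_j))`. -/
def localFactor {k : ℕ} (a b : Fin k → ℂ) (p : ℕ) : ℂ :=
  (∏ j, ∏ l, (1 - (p : ℂ) ^ (-(1 + I * a j - I * b l)))) *
    ∑' m : ℕ, tau (fun j => I * b j) (p ^ m) * tau (fun j => -(I * a j)) (p ^ m) * ((p : ℂ) ^ m)⁻¹

/-- The arithmetic factor, an Euler product. -/
def A {k : ℕ} (a b : Fin k → ℂ) : ℂ := ∏' p : Nat.Primes, localFactor a b p

/-- The points `c_0 = 0, c_1, …, c_n`. -/
def pts {n : ℕ} (c : Fin n → ℝ) : Fin (n + 1) → ℝ := Fin.cons 0 c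

/-- `D_c(w) = A(c - iw, c + iw) ∏_{j,l} ζ(1 + w_j + w_l + i(c_j - c_l))`. -/
def D {n : ℕ} (c : Fin n → ℝ) (w : Fin (n + 1) → ℂ) : ℂ :=
  A (fun j => (pts c j : ℂ) - I * w j) (fun j => (pts c j : ℂ) + I * w j) *
    ∏ j, ∏ l, riemannZeta (1 + w j + w l + I * (pts c j - pts c l))

/-- The main term: `R_c(t) = (2πi)^(-(n+1)) ∮ D_c(w) ∏_j (2/w_j) ((t + c_j)/2π)^(w_j) dw`, the integral over the torus
`|w_j| = 1/8`. -/
def R {n : ℕ} (c : Fin n → ℝ) (t : ℝ) : ℂ :=
  ((2 * Real.pi * I) ^ (n + 1))⁻¹ * torusIntegral (fun w : Fin (n + 1) → ℂ =>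
    D c w * ∏ j, (2 / w j * cexp (w j * (Real.log ((t + pts c j) / (2 * Real.pi)) : ℝ))))
    (fun _ => 0) (fun _ => 1 / 8)

lemma R_eq {n : ℕ} (c : Fin n → ℝ) (t : ℝ) : R c t = Pool.Agent.Y969.GP.RR c t := rfl

theorem result (n : ℕ) (ε : ℝ) (hε : 0 < ε) : ∃ δ T₀ : ℝ, 0 < δ ∧ ∀ T S : ℝ, T₀ ≤ T → 0 ≤ S → S ≤ T →
    volume {c : Fin n → ℝ | (∀ j, 0 ≤ c j ∧ c j ≤ T) ∧
      T ^ (1 / 2 + ε) < ‖((∫ t in (0 : ℝ)..S, ∏ j, ‖riemannZeta (1 / 2 + I * ((t + pts c j : ℝ) : ℂ))‖ ^ 2 : ℝ) : ℂ) -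
        ∫ t in (0 : ℝ)..S, R c t‖} ≤ ENNReal.ofReal (T ^ ((n : ℝ) - δ)) :=
  Pool.Agent.V8H24.GPX.gp_MAIN n ε hε

end

end Pool.Agent.Results.MP_f9aece_nt.GenericSquaresSqrtError
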