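import Pool.Agent.V8H24.GPX.PUAsm

set_option autoImplicit false

/-!
# Moments of zeta of every even order with small generic shifts, in short intervals

Let `k ≥ 0`, `0 < H ≤ T`, `U ≤ T` and let `λ = H U / T` be larger than a power of `log T` (for instance `H = T` and
`U = (log T)^C`, or `U = H = T^(1/2) (log T)^C`). We show that there is `δ > 0`, which depends on `k` only, with the
following property. Let `G` be the set of the `t` with `∫_t^(t+U) |ζ(1/2 + iu)|² du ≤ U λ^(3δ)`. It contains all points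
of `[T, T + H]` outside a set of measure at most `H λ^(-δ)`, and all points of `[T, T + H]` if `U ≥ T^(1/2)`. For all
shifts `a, b ∈ [0,U]^k` outside a set of measure at most `U^(2k) λ^(-δ)`

`∫_{[T,T+H] ∩ G} ∏_j ζ(1/2 + i(t + a_j)) conj ζ(1/2 + i(t + b_j)) dt = H (A(a,b) ∏_{j,l} ζ(1 + i(a_j - b_l)) + O(λ^(-δ)))`.

In terms of the random function `μ_T(x) = ζ(1/2 + ix + iωT)` of the problem: the asymptotics of the moment
`E ∏ μ_T(a_j) conj μ_T(b_j)` of order `2k`, for every `k`, off an event of small probability, for almost all points in a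
window whose length is only a power of `log T`. The proof is by an operator inequality for the difference of zeta and a
short Dirichlet polynomial, applied to one factor after the other. The parts of the proof are in the folders `PU`, `PZ`
and `GS` of the starting files (projects of helper879 and helper612); the assembly is new.
-/

namespace Pool.Agent.Results.MP_f9aece_nt.SmallGenericShifts

open Complex MeasureTheory Set

noncomputable section

/-- `∑ f_1^(l_1) ⋯ f_k^(l_k)`, over the factorisations `f_1 ⋯ f_k = m` into `k` positive integers. -/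
def tau {k : ℕ} (l : Fin k → ℂ) (m : ℕ) : ℂ := ∑ f ∈ Nat.finMulAntidiag k m, ∏ j, (f j : ℂ) ^ l j

/-- The local factor at the prime `p` of the arithmetic factor. -/
def localFactor {k : ℕ} (a b : Fin k → ℝ) (p : ℕ) : ℂ :=
  (∏ j, ∏ l, (1 - (p : ℂ) ^ (-(1 + I * a j - I * b l)))) *
    ∑' m : ℕ, tau (fun j => I * b j) (p ^ m) * tau (fun j => -(I * a j)) (p ^ m) * ((p : ℂ) ^ m)⁻¹

/-- The main term `A(a,b) ∏_{j,l} ζ(1 + i(a_j - b_l))`, `A(a,b)` the Euler product of the local factors. -/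
def mainTerm {k : ℕ} (a b : Fin k → ℝ) : ℂ :=
  (∏' p : Nat.Primes, localFactor a b p) * ∏ j, ∏ l, riemannZeta (1 + I * a j - I * b l)

/-- The points `t` with `∫_t^(t+U) |ζ(1/2 + iu)|² du ≤ U V`. -/
def G (U V : ℝ) : Set ℝ := {t | ∫ u in t..(t + U), ‖riemannZeta (1 / 2 + I * (u : ℂ))‖ ^ 2 ≤ U * V}

/-- The product `∏_j ζ(1/2 + i(t + a_j)) conj ζ(1/2 + i(t + b_j))`. -/
def P {k : ℕ} (a b : Fin k → ℝ) (t : ℝ) : ℂ :=
  ∏ j, riemannZeta (1 / 2 + I * ((t + a j : ℝ) : ℂ)) *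
    (starRingEnd ℂ) (riemannZeta (1 / 2 + I * ((t + b j : ℝ) : ℂ)))

theorem result (k : ℕ) : ∃ δ C₀ T₀ : ℝ, 0 < δ ∧ ∀ T H U : ℝ, T₀ ≤ T → 0 < H → H ≤ T → U ≤ T →
    T * Real.log T ^ C₀ ≤ H * U →
    volume (Icc T (T + H) \ G U ((H * U / T) ^ (3 * δ))) ≤ ENNReal.ofReal (H * (H * U / T) ^ (-δ)) ∧
    (T ^ (1 / 2 : ℝ) ≤ U → Icc T (T + H) ⊆ G U ((H * U / T) ^ (3 * δ))) ∧
    volume {γ : (Fin k → ℝ) × (Fin k → ℝ) | (∀ j, 0 ≤ γ.1 j ∧ γ.1 j ≤ U) ∧ (∀ j, 0 ≤ γ.2 j ∧ γ.2 j ≤ U) ∧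
      H * (H * U / T) ^ (-δ) <
        ‖(∫ t in G U ((H * U / T) ^ (3 * δ)) ∩ Icc T (T + H), P γ.1 γ.2 t) - H * mainTerm γ.1 γ.2‖} ≤
      ENNReal.ofReal (U ^ (2 * k) * (H * U / T) ^ (-δ)) := by
  obtain ⟨δ, C₀, T₀, hδ, h⟩ := Pool.Agent.V8H24.GPX.pu_MAIN k
  refine ⟨δ, C₀, T₀, hδ, fun T H U hT hH hHT hUT hHU => ?_⟩
  obtain ⟨h1, h2, h3⟩ := h T H U hT hH hHT hUT hHU
  refine ⟨h1, h2, ?_⟩
  have hmp := volume_measurePreserving_sumPiEquivProdPi (fun _ : Fin k ⊕ Fin k => ℝ)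
  have e1 : volume {γ : (Fin k → ℝ) × (Fin k → ℝ) | (∀ j, 0 ≤ γ.1 j ∧ γ.1 j ≤ U) ∧ (∀ j, 0 ≤ γ.2 j ∧ γ.2 j ≤ U) ∧
      H * (H * U / T) ^ (-δ) <
        ‖(∫ t in G U ((H * U / T) ^ (3 * δ)) ∩ Icc T (T + H), P γ.1 γ.2 t) - H * mainTerm γ.1 γ.2‖} =
      volume ({γ : Fin k ⊕ Fin k → ℝ | H * (H * U / T) ^ (-δ) <
        ‖(∫ t in Pool.Agent.N879.PU.Gu U ((H * U / T) ^ (3 * δ)) ∩ Icc T (T + H),
          ∏ i, Pool.Agent.N879.PU.fs Pool.Agent.TH612.GS.z i (t + γ i)) - H * Pool.Agent.TH612.GS.zr γ‖} ∩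
        Set.univ.pi fun _ => Icc (0 : ℝ) U) := by
    rw [← hmp.measure_preimage_equiv]
    congr 1
    ext γ
    have e2 : ∀ t : ℝ, ∏ i, Pool.Agent.N879.PU.fs Pool.Agent.TH612.GS.z i (t + γ i) =
        P (fun j => γ (Sum.inl j)) (fun j => γ (Sum.inr j)) t := fun t => by
      rw [Pool.Agent.N879.PU.fs_prod]
      rfl
    simp only [mem_inter_iff, mem_preimage, mem_ofPred_eq, mem_pi, mem_univ, true_imp_iff, mem_Icc, Sum.forall, e2]
    constructor
    · rintro ⟨q1, q2, q3⟩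
      exact ⟨q3, q1, q2⟩
    · rintro ⟨q3, q1, q2⟩
      exact ⟨q1, q2, q3⟩
  rw [e1]
  have hbox : MeasurableSet (Set.univ.pi fun _ : Fin k ⊕ Fin k => Icc (0 : ℝ) U) :=
    MeasurableSet.univ_pi fun _ => measurableSet_Icc
  have e3 : Pool.Agent.TH612.GS.mP (Fin k ⊕ Fin k) U =
      (volume : Measure (Fin k ⊕ Fin k → ℝ)).restrict (Set.univ.pi fun _ => Icc (0 : ℝ) U) := by
    unfold Pool.Agent.TH612.GS.mP
    rw [volume_pi, Measure.restrict_pi_pi]
  rw [e3, Measure.restrict_apply' hbox] at h3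
  exact h3

end

end Pool.Agent.Results.MP_f9aece_nt.SmallGenericShifts
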